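import Pool.Agent.TH54.BU.AppHM
import Pool.Agent.TH54.BU.ExistsExt

/-!
# Free Burnside groups of rank at least two and large prime exponent: infinite; cardinality
(helper321)

An adaptation of `Pool/Agent/TH54/BU/Inf.lean`.
-/

set_option autoImplicit false
set_option linter.style.haveILetI false

namespace Pool.Agent.Y321.HM

open Topology Filter Pool.Agent.TH54 Pool.Agent.TH54.BU

/-- the free Burnside group of rank at least two is infinite -/
theorem infinite_burn {p : ℕ} (hp : p.Prime) (h : Burn p) (I : Type) [Nontrivial I] :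
    Infinite (FreeGroup I ⧸ powSub (FreeGroup I) p) := by
  obtain ⟨i0, i1, hi01⟩ := exists_pair_ne I
  obtain ⟨A, _, z, φ, hφ, hker, hz, hzinf, hpow, hcomm⟩ := h I
  by_contra hfin
  have hfin' : Finite (FreeGroup I ⧸ powSub (FreeGroup I) p) :=
    not_infinite_iff_finite.1 hfin
  -- `A` is torsion free
  have htf : ∀ a : A, IsOfFinOrder a → a = 1 := by
    intro a ha
    by_cases hmem : a ∈ Subgroup.zpowers z
    · obtain ⟨j, rfl⟩ := Subgroup.mem_zpowers_iff.1 hmem
      by_cases hj : j = 0
      · rw [hj, zpow_zero]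
      · exfalso
        apply hzinf
        rw [isOfFinOrder_iff_zpow_eq_one] at ha ⊢
        obtain ⟨n, hn, hn1⟩ := ha
        exact ⟨j * n, mul_ne_zero hj hn, by rw [zpow_mul, hn1]⟩
    · exfalso
      obtain ⟨k, hk, hpk⟩ := hpow a hmem
      have hk0 : k ≠ 0 := by
        rintro rfl
        exact hpk (dvd_zero _)
      apply hzinf
      have h1 : IsOfFinOrder (z ^ k) := by rw [← hk]; exact ha.pow
      rw [isOfFinOrder_iff_zpow_eq_one] at h1 ⊢
      obtain ⟨n, hn, hn1⟩ := h1
      exact ⟨k * n, mul_ne_zero hk0 hn, by rw [zpow_mul, hn1]⟩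
  -- the centre has finite index
  have hle : φ.ker ≤ Subgroup.center A := by
    rw [hker, Subgroup.zpowers_le, Subgroup.mem_center_iff]
    exact fun g => hz g
  have hkfin : φ.ker.FiniteIndex := by
    have : Finite φ.range := inferInstance
    exact Subgroup.finiteIndex_ker φ
  have hcfin : (Subgroup.center A).FiniteIndex := Subgroup.finiteIndex_of_le hle
  have hab : ∀ a b : A, a * b = b * a := by
    intro a b
    have h1 : (MonoidHom.transferCenterPow A) (a * b) = (MonoidHom.transferCenterPow A) (b * a) := by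
      rw [map_mul, map_mul]
      apply Subtype.ext
      exact (Subgroup.mem_center_iff.1 ((MonoidHom.transferCenterPow A) b).2 _)
    have h2 : (MonoidHom.transferCenterPow A) (a * b * (b * a)⁻¹) = 1 := by
      rw [map_mul, map_inv, h1, mul_inv_cancel]
    have h3 : (a * b * (b * a)⁻¹) ^ (Subgroup.center A).index = 1 := by
      rw [← MonoidHom.transferCenterPow_apply, h2]
      rfl
    have h4 := htf _ (isOfFinOrder_iff_pow_eq_one.2
      ⟨_, Nat.pos_of_ne_zero hcfin.index_ne_zero, h3⟩)
    exact mul_inv_eq_one.1 h4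
  apply hcomm i0 i1 hi01
  obtain ⟨a, ha⟩ := hφ (FreeGroup.of i0 : FreeGroup I)
  obtain ⟨b, hb⟩ := hφ (FreeGroup.of i1 : FreeGroup I)
  rw [← ha, ← hb, ← map_mul, ← map_mul, hab]

/-- the cardinality of the free Burnside group of infinite rank -/
theorem card_burn {p : ℕ} (h : Burn p) (I : Type) [Infinite I] :
    Nonempty (FreeGroup I ⧸ powSub (FreeGroup I) p ≃ I) := by
  obtain ⟨A, _, z, φ, hφ, hker, hz, hzinf, hpow, hcomm⟩ := h I
  apply Cardinal.eq.1
  apply le_antisymm
  · refine (Cardinal.mk_le_of_surjective (QuotientGroup.mk_surjective)).trans ?_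
    rw [Cardinal.mk_freeGroup]
    exact max_le le_rfl (Cardinal.aleph0_le_mk I)
  · refine Cardinal.mk_le_of_injective (f := fun i : I =>
      ((FreeGroup.of i : FreeGroup I) : FreeGroup I ⧸ powSub (FreeGroup I) p)) ?_
    intro i j hij
    by_contra hne
    refine hcomm i j hne ?_
    simp only at hij
    rw [hij]

end Pool.Agent.Y321.HM
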