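import Mathlib

/-!
# Hereditary minimality among `T₀` paratopological group topologies (helper321)

A strengthening of `Pool/Agent/TH54/HM.lean`: the coarser topology is only supposed to be `T₀` and to
make multiplication continuous.
-/

set_option autoImplicit false
set_option linter.unusedSectionVars false
set_option linter.style.haveILetI false

namespace Pool.Agent.Y321.HM

open Topology Filter

theorem dvd_pow_valuation {p : ℕ} [hp : Fact p.Prime] {f : ℤ_[p]} (hf : f ≠ 0) :
    f ∣ (p : ℤ_[p]) ^ f.valuation := by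
  have h2 := PadicInt.unitCoeff_spec hf
  generalize PadicInt.unitCoeff hf = u at h2
  generalize f.valuation = v at h2 ⊢
  rw [h2]
  exact (Units.mul_left_dvd).2 (dvd_refl _)

section core

variable {p : ℕ} [hp : Fact p.Prime] {M : Type*} [Group M] [tM : TopologicalSpace M]
  [IsTopologicalGroup M] (ι : Multiplicative ℤ_[p] →* M) (hι : IsOpenEmbedding ι)
  (H : Subgroup M) (σ : TopologicalSpace H)
  (hle : (instTopologicalSpaceSubtype : TopologicalSpace H) ≤ σ)
  (hg : @ContinuousMul H σ _) (hT : @T0Space H σ)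

/-- the trace on `ℤ_p` of the neighbourhoods of the identity in the coarser topology -/
def trace (U : Set H) : Set ℤ_[p] := {z | ∃ x ∈ U, (x : M) = ι (Multiplicative.ofAdd z)}

/-- the cluster points of the traces -/
def clus : Set ℤ_[p] := {z | ∀ U ∈ @nhds H σ 1, z ∈ closure (trace ι H U)}

theorem clus_closed : IsClosed (clus ι H σ) := by
  have : clus ι H σ = ⋂ U ∈ @nhds H σ 1, closure (trace ι H U) := by
    ext z
    simp [clus]
  rw [this]
  exact isClosed_biInter fun _ _ => isClosed_closure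

/-- a neighbourhood of the identity contains the products of the elements of a smaller one -/
theorem split (hg : @ContinuousMul H σ _) {U : Set H} (hU : U ∈ @nhds H σ 1) :
    ∃ V ∈ @nhds H σ 1, ∀ v ∈ V, ∀ w ∈ V, v * w ∈ U := by
  letI := σ
  haveI := hg
  exact exists_nhds_one_split hU

include hg in
theorem clus_add {a b : ℤ_[p]} (ha : a ∈ clus ι H σ) (hb : b ∈ clus ι H σ) :
    a + b ∈ clus ι H σ := by
  intro U hU
  obtain ⟨V, hV, hVU⟩ := split H σ hg hU
  refine map_mem_closure₂ continuous_add (ha V hV) (hb V hV) ?_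
  rintro x ⟨v, hv, ev⟩ y ⟨w, hw, ew⟩
  refine ⟨v * w, hVU v hv w hw, ?_⟩
  rw [ofAdd_add, map_mul, ← ev, ← ew]
  rfl

theorem clus_zero : (0 : ℤ_[p]) ∈ clus ι H σ := by
  intro U hU
  refine subset_closure ⟨1, @mem_of_mem_nhds H σ _ _ hU, ?_⟩
  simp

include hg in
theorem clus_mul {a : ℤ_[p]} (ha : a ∈ clus ι H σ) (z : ℤ_[p]) : z * a ∈ clus ι H σ := by
  refine (PadicInt.denseRange_natCast (p := p)).induction_on z ?_ ?_
  · exact (clus_closed ι H σ).preimage (continuous_mul_const a)
  · intro n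
    induction n with
    | zero => simpa using clus_zero ι H σ
    | succ m ih =>
      have := clus_add ι H σ hg ih ha
      rw [Nat.cast_succ, add_mul, one_mul]
      exact this

include hι hle hg in
/-- an element of `H` over a cluster point is in all neighbourhoods of the identity -/
theorem clus_mem {z : ℤ_[p]} (hz : z ∈ clus ι H σ) {k : H}
    (hk : (k : M) = ι (Multiplicative.ofAdd z)) {U : Set H} (hU : U ∈ @nhds H σ 1) : k ∈ U := by
  obtain ⟨V, hV, hVU⟩ := split H σ hg hU
  have hV2 : V ∈ @nhds H instTopologicalSpaceSubtype 1 := _root_.nhds_mono hle hV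
  rw [mem_nhds_subtype] at hV2
  obtain ⟨O, hO, hOV⟩ := hV2
  have hW : (fun z' : ℤ_[p] => ι (Multiplicative.ofAdd (z - z'))) ⁻¹' O ∈ 𝓝 z := by
    have hc : Continuous fun z' : ℤ_[p] => ι (Multiplicative.ofAdd (z - z')) :=
      hι.continuous.comp (continuous_ofAdd.comp (continuous_const.sub continuous_id))
    refine hc.continuousAt.preimage_mem_nhds ?_
    rw [sub_self, ofAdd_zero, map_one]
    exact hO
  obtain ⟨z', hz'1, v, hv, ev⟩ := mem_closure_iff_nhds.1 (hz V hV) _ hW
  have h1 : ((v⁻¹ * k : H) : M) = ι (Multiplicative.ofAdd (z - z')) := by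
    rw [Subgroup.coe_mul, Subgroup.coe_inv, hk, ev, ← map_inv, ← map_mul, sub_eq_neg_add,
      ofAdd_add, ofAdd_neg]
  have h2 : v⁻¹ * k ∈ V := hOV (by
    show ((v⁻¹ * k : H) : M) ∈ O
    rw [h1]; exact hz'1)
  have h3 := hVU v hv _ h2
  rwa [mul_inv_cancel_left] at h3

include hι hle hg hT in
/-- no nontrivial element of `H` lies over a cluster point -/
theorem clus_disj {z : ℤ_[p]} (hz : z ∈ clus ι H σ) {k : H}
    (hk : (k : M) = ι (Multiplicative.ofAdd z)) : k = 1 := by
  have hz' : -z ∈ clus ι H σ := by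
    have := clus_mul ι H σ hg hz (-1)
    rwa [neg_one_mul] at this
  have hk' : ((k⁻¹ : H) : M) = ι (Multiplicative.ofAdd (-z)) := by
    rw [Subgroup.coe_inv, hk, ofAdd_neg, map_inv]
  have h1 : ∀ U ∈ @nhds H σ 1, k ∈ U := fun U hU => clus_mem ι hι H σ hle hg hz hk hU
  have h2 : ∀ U ∈ @nhds H σ 1, k⁻¹ ∈ U := fun U hU => clus_mem ι hι H σ hle hg hz' hk' hU
  letI := σ
  haveI := hg
  haveI := hT
  have h3 : Inseparable k 1 := by
    rw [inseparable_iff_forall_isOpen]
    intro O hO
    constructor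
    · intro hkO
      have hc : Continuous fun h : H => k * h := continuous_const_mul _
      have h4 : {h : H | k * h ∈ O} ∈ 𝓝 (1 : H) :=
        hc.continuousAt.preimage_mem_nhds (by simpa using hO.mem_nhds hkO)
      have h5 := h2 _ h4
      simpa using h5
    · intro h1O
      exact h1 _ (hO.mem_nhds h1O)
  exact h3.eq

include hι hle hg hT in
/-- the trace topology is the `p`-adic one -/
theorem trace_small (n : ℕ) : ∃ U ∈ @nhds H σ 1, ∀ z ∈ trace ι H U, (p : ℤ_[p]) ^ n ∣ z := by
  by_contra hcon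
  push Not at hcon
  -- a cluster point outside `p ^ n ℤ_p`
  set T : Set ℤ_[p] := {z | ¬ (p : ℤ_[p]) ^ n ∣ z} with hTdef
  have hTc : IsClosed T := by
    have : T = {z : ℤ_[p] | ‖z‖ < (p : ℝ) ^ (-(n : ℤ) + 1)}ᶜ := by
      ext z
      rw [hTdef, Set.mem_ofPred_eq, Set.mem_compl_iff, Set.mem_ofPred_eq]
      rw [← PadicInt.norm_le_pow_iff_norm_lt_pow_add_one, PadicInt.norm_le_pow_iff_mem_span_pow,
        Ideal.mem_span_singleton]
    rw [this]
    exact (isOpen_lt continuous_norm continuous_const).isClosed_compl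
  have hex : ∃ f ∈ T, f ∈ clus ι H σ := by
    by_contra hno
    push Not at hno
    have h1 : ∀ f ∈ T, ∃ U ∈ @nhds H σ 1, f ∉ closure (trace ι H U) := by
      intro f hf
      have := hno f hf
      unfold clus at this
      simp only [Set.mem_ofPred_eq, not_forall] at this
      obtain ⟨U, hU, h⟩ := this
      exact ⟨U, hU, h⟩
    choose! U hU hUf using h1
    have hcov : T ⊆ ⋃ f ∈ T, (closure (trace ι H (U f)))ᶜ := by
      intro f hf
      exact Set.mem_biUnion hf (hUf f hf)
    obtain ⟨t, hcov'⟩ := hTc.isCompact.elim_nhds_subcover'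
      (fun f hf => (closure (trace ι H (U f)))ᶜ)
      (fun f hf => (isClosed_closure.isOpen_compl).mem_nhds (hUf f hf))
    obtain ⟨z, ⟨x, hx, ex⟩, hz⟩ := hcon (⋂ f ∈ t, U f) (by
      letI := σ
      exact (Filter.biInter_finset_mem t).2 fun f _ => hU f f.2)
    have hzT : z ∈ T := hz
    obtain ⟨f, hf, hzf⟩ := Set.mem_iUnion₂.1 (hcov' hzT)
    refine hzf (subset_closure ⟨x, ?_, ex⟩)
    exact Set.mem_iInter₂.1 hx f hf
  obtain ⟨f, hfT, hfc⟩ := hex
  have hf0 : f ≠ 0 := by
    rintro rfl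
    exact hfT (dvd_zero _)
  -- a nontrivial element of `H` over `ℤ_p`
  obtain ⟨z, ⟨x, -, ex⟩, hz⟩ := hcon Set.univ (@Filter.univ_mem _ _)
  have hz0 : z ≠ 0 := by
    rintro rfl
    exact hz (dvd_zero _)
  -- `p ^ v * z` is a cluster point
  have hfv : f ∣ (p : ℤ_[p]) ^ f.valuation := dvd_pow_valuation hf0
  obtain ⟨w, hw⟩ := hfv
  have h3 : (p : ℤ_[p]) ^ f.valuation * z ∈ clus ι H σ := by
    have := clus_mul ι H σ hg hfc (w * z)
    rw [hw]
    convert this using 1
    ring
  have h4 : ((x ^ (p ^ f.valuation) : H) : M) =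
      ι (Multiplicative.ofAdd ((p : ℤ_[p]) ^ f.valuation * z)) := by
    have e : Multiplicative.ofAdd ((p : ℤ_[p]) ^ f.valuation * z) =
        (Multiplicative.ofAdd z) ^ (p ^ f.valuation) := by
      rw [← ofAdd_nsmul, nsmul_eq_mul]
      push_cast
      rfl
    rw [e, map_pow, ← ex]
    rfl
  have h5 := clus_disj ι hι H σ hle hg hT h3 h4
  rw [h5] at h4
  have h6 : ι 1 = ι (Multiplicative.ofAdd ((p : ℤ_[p]) ^ f.valuation * z)) := by
    rw [← h4, map_one]
    rfl
  have h7 := hι.injective h6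
  have h8 : (p : ℤ_[p]) ^ f.valuation * z = 0 := by
    have := congrArg Multiplicative.toAdd h7
    simpa using this.symm
  have hp0 : (p : ℤ_[p]) ≠ 0 := by exact_mod_cast hp.out.ne_zero
  exact (mul_ne_zero (pow_ne_zero _ hp0) hz0) h8

end core

theorem nhds_left {G : Type*} [Group G] (τ : TopologicalSpace G) (h : @ContinuousMul G τ _)
    (x : G) {W : Set G} (hW : W ∈ @nhds G τ x) : {h : G | x * h ∈ W} ∈ @nhds G τ 1 := by
  letI := τ
  haveI := h
  have hc1 : Continuous fun h : G => x * h := continuous_const_mul _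
  exact hc1.continuousAt.preimage_mem_nhds (x := 1)
    (show W ∈ 𝓝 (x * 1) by rw [mul_one]; exact hW)

theorem nhds_right {G : Type*} [Group G] (τ : TopologicalSpace G) (h : @ContinuousMul G τ _)
    (x : G) {W : Set G} (hW : {h : G | x * h ∈ W} ∈ @nhds G τ 1) : W ∈ @nhds G τ x := by
  letI := τ
  haveI := h
  have hc1 : Continuous fun h : G => x⁻¹ * h := continuous_const_mul _
  have h3 : {h : G | x⁻¹ * h ∈ {h : G | x * h ∈ W}} ∈ 𝓝 x :=
    hc1.continuousAt.preimage_mem_nhds (x := x)
      (show {h : G | x * h ∈ W} ∈ 𝓝 (x⁻¹ * x) by rw [inv_mul_cancel]; exact hW)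
  simpa using h3

/-- **Main lemma.** Let `M` be a torsion-free topological group with an open central subgroup
isomorphic to `ℤ_p`, such that the quotient has finite exponent. Then every `T₀` topology on a
subgroup `H`, for which multiplication is continuous and which is coarser than the subspace
topology, is equal to the subspace topology. -/
theorem paraMinimal_of {p : ℕ} [hp : Fact p.Prime] {M : Type*} [Group M]
    [TopologicalSpace M] [IsTopologicalGroup M]
    (ι : Multiplicative ℤ_[p] →* M) (hι : IsOpenEmbedding ι)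
    (hc : ∀ z x, ι z * x = x * ι z)
    (htf : ∀ x : M, IsOfFinOrder x → x = 1) {n : ℕ} (hn : 0 < n)
    (hx : ∀ x : M, x ^ n ∈ ι.range) (H : Subgroup M) (σ : TopologicalSpace H)
    (hg : @ContinuousMul H σ _) (hT : @T0Space H σ)
    (hle : (instTopologicalSpaceSubtype : TopologicalSpace H) ≤ σ) :
    σ = instTopologicalSpaceSubtype := by
  -- write `p ^ k` as a multiple of `n` in `ℤ_p`
  have hn0 : (n : ℤ_[p]) ≠ 0 := by exact_mod_cast hn.ne'
  have hnk : (n : ℤ_[p]) ∣ (p : ℤ_[p]) ^ (n : ℤ_[p]).valuation := dvd_pow_valuation hn0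
  obtain ⟨U, hU, hUz⟩ := trace_small ι hι H σ hle hg hT (n : ℤ_[p]).valuation
  -- the centre is open in the coarse topology
  have hV : {x : H | ∃ z, (x : M) = ι z} ∈ @nhds H σ 1 := by
    have h1 : {x : H | x ^ n ∈ U} ∈ @nhds H σ 1 := by
      letI := σ
      haveI := hg
      have hcn : Continuous fun x : H => x ^ n := continuous_pow n
      exact hcn.continuousAt.preimage_mem_nhds (by simpa using hU)
    refine @Filter.mem_of_superset _ _ _ _ h1 ?_
    intro x hxU
    obtain ⟨w, hw⟩ := hx (x : M)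
    have h2 : (p : ℤ_[p]) ^ (n : ℤ_[p]).valuation ∣ Multiplicative.toAdd w :=
      hUz _ ⟨x ^ n, hxU, by rw [ofAdd_toAdd, hw]; rfl⟩
    obtain ⟨y, hy⟩ := hnk.trans h2
    refine ⟨Multiplicative.ofAdd y, ?_⟩
    have h3 : (ι (Multiplicative.ofAdd y)) ^ n = (x : M) ^ n := by
      rw [← map_pow, ← ofAdd_nsmul, nsmul_eq_mul, ← hy, ofAdd_toAdd, hw]
    have hcomm : Commute (x : M) (ι (Multiplicative.ofAdd y))⁻¹ :=
      (show Commute (ι (Multiplicative.ofAdd y)) (x : M) from hc _ _).symm.inv_right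
    have h4 : ((x : M) * (ι (Multiplicative.ofAdd y))⁻¹) ^ n = 1 := by
      rw [hcomm.mul_pow, inv_pow, h3, mul_inv_cancel]
    have h5 := htf _ (isOfFinOrder_iff_pow_eq_one.2 ⟨n, hn, h4⟩)
    exact mul_inv_eq_one.1 h5
  have hone : @nhds H σ 1 ≤ @nhds H instTopologicalSpaceSubtype 1 := by
    intro W hW
    rw [mem_nhds_subtype] at hW
    obtain ⟨O, hO, hOW⟩ := hW
    have hc0 : Continuous fun z : ℤ_[p] => ι (Multiplicative.ofAdd z) :=
      hι.continuous.comp continuous_ofAdd
    have hO' : (fun z : ℤ_[p] => ι (Multiplicative.ofAdd z)) ⁻¹' O ∈ 𝓝 (0 : ℤ_[p]) :=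
      hc0.continuousAt.preimage_mem_nhds (by simpa using hO)
    obtain ⟨ε, hε, hball⟩ := Metric.mem_nhds_iff.1 hO'
    obtain ⟨j, hj⟩ := PadicInt.exists_pow_neg_lt p hε
    obtain ⟨U', hU', hUz'⟩ := trace_small ι hι H σ hle hg hT j
    have hUV : U' ∩ {x : H | ∃ z, (x : M) = ι z} ∈ @nhds H σ 1 :=
      @Filter.inter_mem _ _ _ _ hU' hV
    refine @Filter.mem_of_superset _ _ _ _ hUV ?_
    rintro x ⟨hxU, z, hz⟩
    apply hOW
    show (x : M) ∈ O
    have h1 : (p : ℤ_[p]) ^ j ∣ Multiplicative.toAdd z :=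
      hUz' _ ⟨x, hxU, by rw [ofAdd_toAdd, hz]⟩
    have h2 : ‖Multiplicative.toAdd z‖ ≤ (p : ℝ) ^ (-(j : ℤ)) := by
      rw [PadicInt.norm_le_pow_iff_mem_span_pow, Ideal.mem_span_singleton]
      exact h1
    have h3 : Multiplicative.toAdd z ∈ Metric.ball (0 : ℤ_[p]) ε := by
      rw [mem_ball_zero_iff]
      exact h2.trans_lt hj
    have h4 := hball h3
    simp only [Set.mem_preimage, ofAdd_toAdd] at h4
    rw [hz]
    exact h4
  refine le_antisymm (le_of_nhds_le_nhds fun x => ?_) hle
  intro W hW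
  have h1 : {h : H | x * h ∈ W} ∈ @nhds H instTopologicalSpaceSubtype 1 :=
    nhds_left _ (@IsTopologicalGroup.toContinuousMul H instTopologicalSpaceSubtype _
      inferInstance) x hW
  exact nhds_right σ hg x (hone h1)

end Pool.Agent.Y321.HM
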